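import Mathlib

/-!
Link diagrams in Morse position (read bottom to top as words in cups, caps and crossings),
planar isotopy and Reidemeister moves as local word moves, and the defining properties of the
HOMFLYPT polynomial and of Kauffman's regular isotopy invariant.
-/

namespace Pool.Agent.P.MP_7f6fde_gt

open LaurentPolynomial

/-- One horizontal slice of a diagram.  `cup i o`: a local minimum whose two arms become strands
`i, i+1` (the left arm carries the label `o`); `cap i`: a local maximum joining strands `i, i+1`;
`cr i s`: strands `i, i+1` cross, and the strand going from lower left to upper right is the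
over-strand iff `s`.  Labels: `Bool` (up or down) for oriented diagrams, `Unit` for unoriented. -/
inductive Sl (α : Type) where
  | cup (i : ℕ) (o : α)
  | cap (i : ℕ)
  | cr (i : ℕ) (s : Bool)

open Sl

variable {α : Type}

/-- The row of strand labels above a slice, from the row below it (`fl` reverses a label). -/
def step [DecidableEq α] (fl : α → α) (r : List α) : Sl α → Option (List α)
  | cup i o => if i ≤ r.length then some (r.take i ++ o :: fl o :: r.drop i) else none
  | cap i => match r.drop i with
    | x :: y :: t => if y = fl x then some (r.take i ++ t) else none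
    | _ => none
  | cr i _ => match r.drop i with
    | x :: y :: t => some (r.take i ++ y :: x :: t)
    | _ => none

/-- A word is a (consistently labelled) link diagram: no strands below, none above. -/
def Closed [DecidableEq α] (fl : α → α) (w : List (Sl α)) : Prop :=
  w.foldlM (step fl) [] = some []

def Sl.pos : Sl α → ℕ
  | cup i _ => i
  | cap i => i
  | cr i _ => i

def Sl.inn : Sl α → ℕ
  | cup _ _ => 0
  | _ => 2

def Sl.out : Sl α → ℕ
  | cap _ => 0
  | _ => 2

def Sl.at : Sl α → ℕ → Sl α
  | cup _ o, j => cup j o
  | cap _, j => cap j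
  | cr _ s, j => cr j s

/-- Local moves of regular isotopy: height exchange of far-apart slices, zigzags, sliding a
crossing around a minimum or maximum (planar isotopy), Reidemeister II and III. -/
inductive Reg : List (Sl α) → List (Sl α) → Prop
  | comm (s t : Sl α) (j : ℕ) : Reg [s, t.at (s.pos + s.out + j)] [t.at (s.pos + s.inn + j), s]
  | zig (i : ℕ) (o : α) : Reg [cup (i + 1) o, cap i] []
  | zag (i : ℕ) (o : α) : Reg [cup i o, cap (i + 1)] []
  | cupSl (i : ℕ) (o : α) (s : Bool) : Reg [cup (i + 1) o, cr i s] [cup i o, cr (i + 1) (!s)]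
  | capSl (i : ℕ) (s : Bool) : Reg [cr i s, cap (i + 1)] [cr (i + 1) (!s), cap i]
  | r2 (i : ℕ) (s : Bool) : Reg [cr i s, cr i (!s)] []
  | r3 (i : ℕ) (s : Bool) :
      Reg [cr i s, cr (i + 1) s, cr i s] [cr (i + 1) s, cr i s, cr (i + 1) s]

/-- Reidemeister I: removing a curl; the curl is negative for `s = true`, positive otherwise. -/
inductive Curl (fl : α → α) : Bool → List (Sl α) → List (Sl α) → Prop
  | cap (i : ℕ) (s : Bool) : Curl fl s [cr i s, cap i] [cap i]
  | cup (i : ℕ) (o : α) (s : Bool) : Curl fl s [cup i o, cr i s] [cup i (fl o)]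

/-- Two link diagrams that differ by one local move of type `M`. -/
def OneMove [DecidableEq α] (fl : α → α) (M : List (Sl α) → List (Sl α) → Prop)
    (D D' : List (Sl α)) : Prop :=
  Closed fl D ∧ Closed fl D' ∧ ∃ A B L R, M L R ∧ D = A ++ L ++ B ∧ D' = A ++ R ++ B

/-- Isotopy of oriented links. -/
def Isotopic : List (Sl Bool) → List (Sl Bool) → Prop :=
  Relation.EqvGen (OneMove not fun L R => Reg L R ∨ ∃ s, Curl not s L R)

/-- Number of components; the row records, for each strand, the name of the arc it lies on. -/
def comps : List ℕ → List (Sl α) → ℕ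
  | _, [] => 0
  | r, cup i _ :: w => comps (r.take i ++ w.length :: w.length :: r.drop i) w
  | r, cr i _ :: w => comps (r.take i ++ r.getD (i + 1) 0 :: r.getD i 0 :: r.drop (i + 2)) w
  | r, cap i :: w =>
    (if r.getD i 0 = r.getD (i + 1) 0 then 1 else 0) +
      comps ((r.take i ++ r.drop (i + 2)).map
        fun x => if x = r.getD (i + 1) 0 then r.getD i 0 else x) w

/-- Writhe: `cr i s` is positive iff (`s` holds iff both strands point the same way). -/
def writhe : List Bool → List (Sl Bool) → ℤ
  | _, [] => 0
  | r, c :: w =>
    (match c with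
      | cr i s => if s = (r[i]? == r[i + 1]?) then 1 else -1
      | _ => 0) + writhe ((step not r c).getD []) w

/-- Forgetting the orientation. -/
def forget : Sl Bool → Sl Unit
  | cup i _ => cup i ()
  | cap i => cap i
  | cr i s => cr i s

/-- Laurent polynomials in `a = T 1` with coefficients Laurent polynomials in `z = C (T 1)`. -/
abbrev LL : Type := LaurentPolynomial (LaurentPolynomial ℤ)

/-- Defining properties of the HOMFLYPT polynomial. -/
def IsHomfly (P : List (Sl Bool) → LL) : Prop :=
  (∀ D D', Isotopic D D' → P D = P D') ∧ (∀ o, P [cup 0 o, cap 0] = 1) ∧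
  ∀ A B i r x y t, A.foldlM (step not) [] = some r → r.drop i = x :: y :: t →
    Closed not (A ++ cr i true :: B) →
    T (-1) * P (A ++ cr i (x == y) :: B) - T 1 * P (A ++ cr i (x != y) :: B) =
      C (T 1) * P (A ++ (if x = y then [] else [cap i, cup i y]) ++ B)

/-- Defining properties of Kauffman's regular isotopy invariant of unoriented diagrams. -/
def IsKauffman (L : List (Sl Unit) → LL) : Prop :=
  (∀ D D', OneMove id Reg D D' → L D = L D') ∧ L [cup 0 (), cap 0] = 1 ∧
  (∀ A B i, Closed id (A ++ cr i true :: B) →
    L (A ++ cr i true :: B) + L (A ++ cr i false :: B) =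
      C (T 1) * (L (A ++ B) + L (A ++ cap i :: cup i () :: B))) ∧
  ∀ s D D', OneMove id (Curl id s) D D' → L D = T (if s then -1 else 1) * L D'

/-- The Kauffman polynomial `a ^ (-writhe) * L`. -/
noncomputable def kauffmanF (L : List (Sl Unit) → LL) (D : List (Sl Bool)) : LL :=
  T (-writhe [] D) * L (D.map forget)

/-- Largest minus smallest exponent of `a`. -/
noncomputable def aSpread (Q : LL) : ℤ :=
  sSup (Q.coeff.support : Set ℤ) - sInf (Q.coeff.support : Set ℤ)

end Pool.Agent.P.MP_7f6fde_gt
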