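import Pool.Agent.P.MP_7f6fde_gt.Cert

/-! Connected sums of the 12-crossing knot and the spreads of their polynomials. -/

namespace Pool.Agent.P.MP_7f6fde_gt

open LaurentPolynomial Sl

def HasRange (Q : LL) (lo hi : ℤ) : Prop :=
  Q.coeff lo ≠ 0 ∧ Q.coeff hi ≠ 0 ∧ ∀ e, Q.coeff e ≠ 0 → lo ≤ e ∧ e ≤ hi

theorem HasRange.mul {P Q : LL} {a b c d : ℤ} (hP : HasRange P a b) (hQ : HasRange Q c d) :
    HasRange (P * Q) (a + c) (b + d) := by
  obtain ⟨p1, p2, p3⟩ := hP
  obtain ⟨q1, q2, q3⟩ := hQ
  refine ⟨?_, ?_, ?_⟩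
  · rw [AddMonoidAlgebra.coeff_mul_add_of_uniqueAdd]
    · exact mul_ne_zero p1 q1
    · intro x y hx hy h
      have := p3 x (Finsupp.mem_support_iff.1 hx)
      have := q3 y (Finsupp.mem_support_iff.1 hy)
      omega
  · rw [AddMonoidAlgebra.coeff_mul_add_of_uniqueAdd]
    · exact mul_ne_zero p2 q2
    · intro x y hx hy h
      have := p3 x (Finsupp.mem_support_iff.1 hx)
      have := q3 y (Finsupp.mem_support_iff.1 hy)
      omega
  · intro e he
    obtain ⟨x, hx, y, hy, rfl⟩ := Finset.mem_add.1
      (AddMonoidAlgebra.support_coeff_mul_subset P Q (Finsupp.mem_support_iff.2 he))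
    have := p3 x (Finsupp.mem_support_iff.1 hx)
    have := q3 y (Finsupp.mem_support_iff.1 hy)
    omega

theorem hasRange_T (n : ℤ) : HasRange (T n) n n := by
  refine ⟨by simp, by simp, fun e he => ?_⟩
  by_cases h : n = e
  · omega
  · simp [h] at he

theorem HasRange.pow {P : LL} {a b : ℤ} (hP : HasRange P a b) (n : ℕ) :
    HasRange (P ^ n) (n * a) (n * b) := by
  induction n with
  | zero => simpa using hasRange_T 0
  | succ n ih =>
    have := ih.mul hP
    rw [pow_succ]
    convert this using 1 <;> push_cast <;> ring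

theorem HasRange.spread {P : LL} {a b : ℤ} (hP : HasRange P a b) : aSpread P = b - a := by
  obtain ⟨p1, p2, p3⟩ := hP
  have h1 : IsGreatest (P.coeff.support : Set ℤ) b :=
    ⟨Finsupp.mem_support_iff.2 p2, fun e he => (p3 e (Finsupp.mem_support_iff.1 he)).2⟩
  have h2 : IsLeast (P.coeff.support : Set ℤ) a :=
    ⟨Finsupp.mem_support_iff.2 p1, fun e he => (p3 e (Finsupp.mem_support_iff.1 he)).1⟩
  rw [aSpread, h1.csSup_eq, h2.csInf_eq]

theorem evT_eq (t : ℤ × ℤ × ℤ) :
    evT t = AddMonoidAlgebra.single t.1 (AddMonoidAlgebra.single t.2.1 t.2.2) := by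
  rw [single_eq_C_mul_T, single_eq_C_mul_T, evT, map_mul]
  simp only [eq_intCast, map_intCast]
  ring

def cf (p : Poly) (e j : ℤ) : ℤ := (p.map fun t => if t.1 = e ∧ t.2.1 = j then t.2.2 else 0).sum

theorem coeff_ev (p : Poly) (e j : ℤ) : ((ev p).coeff e).coeff j = cf p e j := by
  induction p with
  | nil => simp [cf]
  | cons t p ih =>
    have : cf (t :: p) e j = (if t.1 = e ∧ t.2.1 = j then t.2.2 else 0) + cf p e j := by simp [cf]
    rw [this, ev_cons, ← ih, evT_eq]
    simp only [AddMonoidAlgebra.coeff_add, Finsupp.coe_add, Pi.add_apply,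
      AddMonoidAlgebra.coeff_single, Finsupp.single_apply]
    congr 1
    by_cases h1 : t.1 = e <;> by_cases h2 : t.2.1 = j <;>
      simp [h1, h2, -single_eq_C_mul_T]

theorem hasRange_ev (p : Poly) (lo hi j1 j2 : ℤ) (h1 : cf p lo j1 ≠ 0) (h2 : cf p hi j2 ≠ 0)
    (h3 : ∀ t ∈ p, lo ≤ t.1 ∧ t.1 ≤ hi) : HasRange (ev p) lo hi := by
  refine ⟨fun h => h1 (by rw [← coeff_ev, h]; simp), fun h => h2 (by rw [← coeff_ev, h]; simp),
    fun e he => ?_⟩
  by_contra hc
  apply he
  ext j
  rw [coeff_ev, cf]
  simp only [AddMonoidAlgebra.coeff_zero, Finsupp.coe_zero, Pi.zero_apply]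
  apply List.sum_eq_zero
  intro x hx
  obtain ⟨t, ht, rfl⟩ := List.mem_map.1 hx
  have := h3 t ht
  rw [if_neg]
  rintro ⟨rfl, -⟩
  exact hc this

theorem rangeH : HasRange (ev polyH) (-8) 0 :=
  hasRange_ev _ _ _ 2 0 (by decide) (by decide) (by decide)

theorem rangeK : HasRange (ev polyK) (-4) 3 :=
  hasRange_ev _ _ _ 0 1 (by decide) (by decide) (by decide)

variable {α : Type} [DecidableEq α]

theorem pow_of_good {fl : α → α} {f : List (Sl α) → LL} {o : α} {W : List (Sl α)} {p : Poly}
    (h : Good fl f (cup 0 o :: W) [(p, [cup 0 o])]) (B : List (Sl α)) (n : ℕ)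
    (hc : Closed fl (cup 0 o :: (List.replicate n W).flatten ++ B)) :
    f (cup 0 o :: (List.replicate n W).flatten ++ B) = ev p ^ n * f (cup 0 o :: B) := by
  induction n with
  | zero => simp
  | succ n ih =>
    obtain ⟨a, b⟩ := h ((List.replicate n W).flatten ++ B)
      (by simpa [List.replicate_succ, List.append_assoc] using hc)
    have a' := a _ (List.mem_singleton_self _)
    have := ih (by simpa using a')
    simp only [List.replicate_succ, List.flatten_cons, List.cons_append, List.append_assoc] at *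
    rw [b]
    simp only [val_cons, val_nil, List.cons_append, List.nil_append, this]
    ring

theorem closed_pow {fl : α → α} {o : α} {W : List (Sl α)}
    (h : run fl [o, fl o] W = some [o, fl o]) (n : ℕ) :
    Closed fl (cup 0 o :: (List.replicate n W).flatten ++ [cap 0]) := by
  have : run fl [o, fl o] ((List.replicate n W).flatten ++ [cap 0]) = some [] := by
    induction n with
    | zero => simp [run, step]
    | succ n ih =>
      rw [List.replicate_succ, List.flatten_cons, List.append_assoc, run_append, h]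
      exact ih
  simpa [Closed, run, step] using this

/-- The connected sum of `n` copies of the knot. -/
def knotN (n : ℕ) : List (Sl Bool) := cup 0 true :: (List.replicate n knotW).flatten ++ [cap 0]

theorem closed_knotN (n : ℕ) : Closed not (knotN n) := closed_pow (by decide) n

theorem comps_W (B : List (Sl Bool)) (k : ℕ) (hk : B.length + 20 ≤ k) :
    ∃ k', B.length ≤ k' ∧ comps [k, k] (knotW ++ B) = comps [k', k'] B := by
  obtain ⟨m, rfl⟩ := Nat.exists_eq_add_of_le hk
  have e1 : 20 + m ≠ 18 := by omega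
  have e2 : 20 + m ≠ 17 := by omega
  have e3 : 20 + m ≠ 7 := by omega
  have e4 : 20 + m ≠ 19 := by omega
  refine ⟨B.length + (20 + m), by omega, ?_⟩
  simp [knotW, comps, add_assoc, e1, e2, e3, e4]

theorem comps_knotN (n : ℕ) : comps [] (knotN n) = 1 := by
  have : ∀ k, ((List.replicate n knotW).flatten ++ [cap 0]).length ≤ k →
      comps [k, k] ((List.replicate n knotW).flatten ++ [cap 0]) = 1 := by
    induction n with
    | zero => intro k _; simp [comps]
    | succ n ih =>
      intro k hk
      rw [List.replicate_succ, List.flatten_cons, List.append_assoc] at hk ⊢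
      obtain ⟨k', h1, h2⟩ := comps_W ((List.replicate n knotW).flatten ++ [cap 0]) k (by
        rw [List.length_append] at hk
        have : knotW.length = 20 := rfl
        omega)
      rw [h2]; exact ih k' h1
  exact this _ le_rfl

theorem writhe_W (B : List (Sl Bool)) :
    writhe [true, false] (knotW ++ B) = -4 + writhe [true, false] B := by
  simp [knotW, writhe, step]
  omega

theorem writhe_knotN (n : ℕ) : writhe [] (knotN n) = n * (-4) := by
  have : writhe [true, false] ((List.replicate n knotW).flatten ++ [cap 0]) = n * (-4) := by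
    induction n with
    | zero => simp [writhe]
    | succ n ih =>
      rw [List.replicate_succ, List.flatten_cons, List.append_assoc, writhe_W, ih]
      push_cast; ring
  simpa [knotN, writhe, step] using this

theorem homfly_knotN {P : List (Sl Bool) → LL} (hP : IsHomfly P) (n : ℕ) :
    P (knotN n) = ev polyH ^ n := by
  have := pow_of_good (check_sound (homR_sound hP) checkH) [cap 0] n (closed_knotN n)
  rw [knotN, this, hP.2.1, mul_one]

theorem kauffman_knotN {L : List (Sl Unit) → LL} (hL : IsKauffman L) (n : ℕ) :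
    L ((knotN n).map forget) = ev polyK ^ n := by
  have e : (knotN n).map forget =
      cup 0 () :: (List.replicate n (knotW.map forget)).flatten ++ [cap 0] := by
    simp [knotN, forget, List.map_flatten]
  have := pow_of_good (check_sound (kauR_sound hL) checkK) [cap 0] n
    (closed_pow (fl := id) (by decide) n)
  rw [e, this, hL.2.1, mul_one]

theorem spread_homfly {P : List (Sl Bool) → LL} (hP : IsHomfly P) (n : ℕ) :
    aSpread (P (knotN n)) = 8 * n := by
  rw [homfly_knotN hP, (rangeH.pow n).spread]; ring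

theorem spread_kauffman {L : List (Sl Unit) → LL} (hL : IsKauffman L) (n : ℕ) :
    aSpread (kauffmanF L (knotN n)) = 7 * n := by
  rw [kauffmanF, kauffman_knotN hL, ((hasRange_T _).mul (rangeK.pow n)).spread]; ring

theorem nontrivial_knotN {P : List (Sl Bool) → LL} (hP : IsHomfly P) (n : ℕ) (hn : 0 < n)
    (o : Bool) : ¬ Isotopic (knotN n) [cup 0 o, cap 0] := by
  intro h
  have h1 := spread_homfly hP n
  rw [hP.1 _ _ h, hP.2.1, ← T_zero, (hasRange_T 0).spread] at h1
  omega

end Pool.Agent.P.MP_7f6fde_gt
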