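import Pool.Agent.P.MP_7f6fde_gt.Defs

/-! A verified checker for skein computations on Morse words. -/

namespace Pool.Agent.P.MP_7f6fde_gt

open LaurentPolynomial Sl

deriving instance DecidableEq for Sl

/-! ### Strict evaluation helpers -/

def forceN {β : Type} (n : ℕ) (k : ℕ → β) : β := Nat.casesOn n (k 0) (fun m => k (Nat.succ m))

theorem forceN_eq {β : Type} (n : ℕ) (k : ℕ → β) : forceN n k = k n := by cases n <;> rfl

def forceZ {β : Type} (n : ℤ) (k : ℤ → β) : β :=
  Int.casesOn n (fun m => forceN m fun m => k (Int.ofNat m))
    (fun m => forceN m fun m => k (Int.negSucc m))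

theorem forceZ_eq {β : Type} (n : ℤ) (k : ℤ → β) : forceZ n k = k n := by
  cases n <;> simp [forceZ, forceN_eq]

/-! ### Polynomials as lists -/

abbrev Poly := List (ℤ × ℤ × ℤ)

noncomputable def evT (t : ℤ × ℤ × ℤ) : LL := T t.1 * C (T t.2.1) * (t.2.2 : LL)

noncomputable def ev (p : Poly) : LL := (p.map evT).sum

@[simp] theorem ev_nil : ev [] = 0 := rfl

@[simp] theorem ev_cons (t : ℤ × ℤ × ℤ) (p : Poly) : ev (t :: p) = evT t + ev p := by simp [ev]

def forceP {β : Type} : Poly → (Poly → β) → β
  | [], k => k []
  | t :: p, k => forceZ t.1 fun a => forceZ t.2.1 fun b => forceZ t.2.2 fun c =>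
      forceP p fun q => k ((a, b, c) :: q)

theorem forceP_eq {β : Type} (p : Poly) (k : Poly → β) : forceP p k = k p := by
  induction p generalizing k with
  | nil => rfl
  | cons t p ih => simp [forceP, forceZ_eq, ih]

def mergeAux (a : ℤ × ℤ × ℤ) (k : Poly → Poly) : Poly → Poly
  | [] => a :: k []
  | b :: q =>
    if a.1 = b.1 ∧ a.2.1 = b.2.1 then
      (if a.2.2 + b.2.2 = 0 then k q else (a.1, a.2.1, a.2.2 + b.2.2) :: k q)
    else if a.1 < b.1 ∨ (a.1 = b.1 ∧ a.2.1 < b.2.1) then a :: k (b :: q)
    else b :: mergeAux a k q

def merge : Poly → Poly → Poly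
  | [] => fun q => q
  | a :: p => mergeAux a (merge p)

theorem ev_mergeAux (a : ℤ × ℤ × ℤ) (k : Poly → Poly) (x : LL) (hk : ∀ q, ev (k q) = x + ev q)
    (q : Poly) : ev (mergeAux a k q) = evT a + x + ev q := by
  induction q with
  | nil => simp [mergeAux, hk]
  | cons b q ih =>
    obtain ⟨a1, a2, a3⟩ := a
    obtain ⟨b1, b2, b3⟩ := b
    simp only [mergeAux]
    split_ifs with h1 h2 h3
    · obtain ⟨rfl, rfl⟩ := h1
      have : (b3 : LL) = -(a3 : LL) := by
        have : b3 = -a3 := by omega
        rw [this]; simp
      simp only [hk, ev_cons, evT, this]; ring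
    · obtain ⟨rfl, rfl⟩ := h1
      simp only [hk, ev_cons, evT, Int.cast_add]; ring
    · simp only [hk, ev_cons]; ring
    · simp only [ev_cons, ih]; ring

theorem ev_merge (p q : Poly) : ev (merge p q) = ev p + ev q := by
  induction p generalizing q with
  | nil => simp [merge]
  | cons a p ih => simp only [merge, ev_cons]; exact ev_mergeAux a _ _ ih q

def mulT (t : ℤ × ℤ × ℤ) (p : Poly) : Poly :=
  p.map fun u => (t.1 + u.1, t.2.1 + u.2.1, t.2.2 * u.2.2)

theorem ev_mulT (t : ℤ × ℤ × ℤ) (p : Poly) : ev (mulT t p) = evT t * ev p := by
  induction p with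
  | nil => simp [mulT]
  | cons u p ih =>
    have : mulT t (u :: p) = (t.1 + u.1, t.2.1 + u.2.1, t.2.2 * u.2.2) :: mulT t p := rfl
    rw [this, ev_cons, ih, ev_cons]
    simp only [evT, T_add, map_mul, Int.cast_mul]; ring

def pmul (c : Poly) : Poly → Poly
  | [] => []
  | [t] => mulT t c
  | t :: m => forceP (mulT t c) fun x => forceP (pmul c m) fun y => merge x y

theorem ev_pmul (c m : Poly) : ev (pmul c m) = ev c * ev m := by
  induction m with
  | nil => simp [pmul]
  | cons t m ih =>
    cases m with
    | nil => simp [pmul, ev_mulT, mul_comm]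
    | cons u m =>
      rw [pmul, forceP_eq, forceP_eq, ev_merge, ev_mulT, ih]
      · simp only [ev_cons]; ring
      · simp

/-! ### Words and formal combinations -/

variable {α : Type} [DecidableEq α]

abbrev Terms (α : Type) := List (Poly × List (Sl α))

def run (fl : α → α) (r : List α) (w : List (Sl α)) : Option (List α) := w.foldlM (step fl) r

theorem run_append (fl : α → α) (r : List α) (u v : List (Sl α)) :
    run fl r (u ++ v) = (run fl r u).bind fun r' => run fl r' v := by
  simp [run, List.foldlM_append]

theorem closed_iff (fl : α → α) (w : List (Sl α)) : Closed fl w ↔ run fl [] w = some [] := Iff.rfl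

def forceW {β : Type} : List (Sl α) → (List (Sl α) → β) → β
  | [], k => k []
  | cup i o :: w, k => forceN i fun i => forceW w fun v => k (cup i o :: v)
  | cap i :: w, k => forceN i fun i => forceW w fun v => k (cap i :: v)
  | cr i true :: w, k => forceN i fun i => forceW w fun v => k (cr i true :: v)
  | cr i false :: w, k => forceN i fun i => forceW w fun v => k (cr i false :: v)

omit [DecidableEq α] in
theorem forceW_eq {β : Type} (w : List (Sl α)) (k : List (Sl α) → β) : forceW w k = k w := by
  induction w generalizing k with
  | nil => rfl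
  | cons c w ih =>
    cases c with
    | cup i o => simp [forceW, forceN_eq, ih]
    | cap i => simp [forceW, forceN_eq, ih]
    | cr i s => cases s <;> simp [forceW, forceN_eq, ih]

noncomputable def val (f : List (Sl α) → LL) (B : List (Sl α)) (L : Terms α) : LL :=
  (L.map fun x => ev x.1 * f (x.2 ++ B)).sum

def AllC (fl : α → α) (B : List (Sl α)) (L : Terms α) : Prop := ∀ x ∈ L, Closed fl (x.2 ++ B)

def Good (fl : α → α) (f : List (Sl α) → LL) (w : List (Sl α)) (L : Terms α) : Prop :=
  ∀ B, Closed fl (w ++ B) → AllC fl B L ∧ f (w ++ B) = val f B L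

/-- `c * (u ++ L ++ v)` put in front of `td`. -/
def scale {β : Type} (c : Poly) (u v : List (Sl α)) (td : Terms α) : Terms α → (Terms α → β) → β
  | [], k => k td
  | x :: L, k => forceP (pmul c x.1) fun p => forceW (u ++ x.2 ++ v) fun w =>
      scale c u v td L fun r => k ((p, w) :: r)

omit [DecidableEq α] in
theorem scale_eq {β : Type} (c : Poly) (u v : List (Sl α)) (td L : Terms α) (k : Terms α → β) :
    scale c u v td L k = k ((L.map fun x => (pmul c x.1, u ++ x.2 ++ v)) ++ td) := by
  induction L generalizing k with
  | nil => rfl
  | cons x L ih => simp [scale, forceP_eq, forceW_eq, ih]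

def ins {β : Type} (c : Poly) (w : List (Sl α)) : Terms α → (Terms α → β) → β
  | [], k => k [(c, w)]
  | x :: d, k => if x.2 = w then forceP (merge c x.1) fun p => k ((p, w) :: d)
      else ins c w d fun r => k (x :: r)

def ins' (c : Poly) (w : List (Sl α)) : Terms α → Terms α
  | [] => [(c, w)]
  | x :: d => if x.2 = w then (merge c x.1, w) :: d else x :: ins' c w d

theorem ins_eq {β : Type} (c : Poly) (w : List (Sl α)) (d : Terms α) (k : Terms α → β) :
    ins c w d k = k (ins' c w d) := by
  induction d generalizing k with
  | nil => rfl
  | cons x d ih => simp only [ins, ins']; split_ifs <;> simp [forceP_eq, ih]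

omit [DecidableEq α] in
@[simp] theorem val_nil (f : List (Sl α) → LL) (B : List (Sl α)) : val f B [] = 0 := rfl

omit [DecidableEq α] in
@[simp] theorem val_cons (f : List (Sl α) → LL) (B : List (Sl α)) (x) (L : Terms α) :
    val f B (x :: L) = ev x.1 * f (x.2 ++ B) + val f B L := by simp [val]

omit [DecidableEq α] in
theorem val_append (f : List (Sl α) → LL) (B : List (Sl α)) (L M : Terms α) :
    val f B (L ++ M) = val f B L + val f B M := by simp [val]

theorem val_ins' (f : List (Sl α) → LL) (B : List (Sl α)) (c : Poly) (w : List (Sl α))
    (d : Terms α) : val f B (ins' c w d) = ev c * f (w ++ B) + val f B d := by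
  induction d with
  | nil => simp [ins']
  | cons x d ih =>
    simp only [ins']; split_ifs with h
    · simp only [val_cons, ev_merge, h]; ring
    · simp only [val_cons, ih]; ring

theorem allC_ins' {fl : α → α} {B : List (Sl α)} (c : Poly) {w : List (Sl α)} {d : Terms α}
    (hw : Closed fl (w ++ B)) (hd : AllC fl B d) : AllC fl B (ins' c w d) := by
  induction d with
  | nil => intro x hx; simp only [ins', List.mem_singleton] at hx; subst hx; exact hw
  | cons y d ih =>
    have hy := hd y (by simp)
    have hd' : AllC fl B d := fun x hx => hd x (by simp [hx])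
    simp only [ins']; split_ifs with h
    · intro x hx
      rcases List.mem_cons.1 hx with rfl | hx
      · exact hw
      · exact hd' x hx
    · intro x hx
      rcases List.mem_cons.1 hx with rfl | hx
      · exact hy
      · exact ih hd' x hx

omit [DecidableEq α] in
theorem val_map (f : List (Sl α) → LL) (B u v : List (Sl α)) (c : Poly) (L : Terms α) :
    val f B (L.map fun x => (pmul c x.1, u ++ x.2 ++ v)) =
      ev c * (L.map fun x => ev x.1 * f (u ++ x.2 ++ (v ++ B))).sum := by
  induction L with
  | nil => simp
  | cons x L ih =>
    rw [List.map_cons, val_cons, ih]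
    simp only [List.map_cons, List.sum_cons, ev_pmul, List.append_assoc]; ring

/-- Soundness of a local rule in a row. -/
def LocOK (fl : α → α) (f : List (Sl α) → LL) (row : List α) (L : List (Sl α)) (Rs : Terms α) :
    Prop :=
  ∀ A B, run fl [] A = some row → Closed fl (A ++ L ++ B) → (∀ x ∈ Rs, Closed fl (A ++ x.2 ++ B)) →
    f (A ++ L ++ B) = (Rs.map fun x => ev x.1 * f (A ++ x.2 ++ B)).sum

abbrev Rule (α : Type) := ℕ → List α → List (Sl α) → Option (ℕ × Terms α)

def RuleOK (fl : α → α) (f : List (Sl α) → LL) (rule : Rule α) : Prop :=
  ∀ n row rest m Rs, rule n row rest = some (m, Rs) → LocOK fl f row (rest.take m) Rs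

abbrev Table (α : Type) := List (List (Sl α) × Terms α)

def script (fl : α → α) (rule : Rule α) (tab : Table α) :
    List ℕ → Terms α → Terms α → Option (Terms α)
  | [], td, d => if td.isEmpty then some d else none
  | n :: ns, td, d =>
    match td with
    | [] => none
    | x :: td =>
      if n % 16 = 0 then ins x.1 x.2 d fun d => script fl rule tab ns td d
      else if n % 16 = 1 then
        match tab[n / 16]? with
        | none => none
        | some e =>
          if x.2.take e.1.length = e.1 then
            scale x.1 [] (x.2.drop e.1.length) td e.2 fun td => script fl rule tab ns td d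
          else none
      else
        match run fl [] (x.2.take (n / 16 % 32)) with
        | none => none
        | some row =>
          match rule n row (x.2.drop (n / 16 % 32)) with
          | none => none
          | some (m, Rs) =>
            if Rs.all fun y => run fl row y.2 = run fl row ((x.2.drop (n / 16 % 32)).take m) then
              scale x.1 (x.2.take (n / 16 % 32)) ((x.2.drop (n / 16 % 32)).drop m) td Rs
                fun td => script fl rule tab ns td d
            else none

theorem script_sound {fl : α → α} {f : List (Sl α) → LL} {rule : Rule α} (hr : RuleOK fl f rule)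
    {tab : Table α} (ht : ∀ e ∈ tab, Good fl f e.1 e.2) (B : List (Sl α)) (ns : List ℕ) :
    ∀ td d r : Terms α, script fl rule tab ns td d = some r → AllC fl B td → AllC fl B d →
      AllC fl B r ∧ val f B r = val f B td + val f B d := by
  induction ns with
  | nil =>
    intro td d r h h1 h2
    cases td with
    | nil => simp only [script, List.isEmpty_nil, if_true, Option.some.injEq] at h; subst h; simpa
    | cons x td => simp [script] at h
  | cons n ns ih =>
    intro td d r h h1 h2
    cases td with
    | nil => simp [script] at h
    | cons x td =>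
      have hx : Closed fl (x.2 ++ B) := h1 x (by simp)
      have htd : AllC fl B td := fun y hy => h1 y (by simp [hy])
      simp only [script] at h
      split_ifs at h with c0 c1
      · rw [ins_eq] at h
        obtain ⟨a, b⟩ := ih _ _ _ h htd (allC_ins' _ hx h2)
        refine ⟨a, ?_⟩
        rw [b, val_ins', val_cons]; ring
      · split at h
        · simp at h
        · rename_i e he
          split_ifs at h with hp
          rw [scale_eq] at h
          have hg := ht e (List.mem_of_getElem? he)
          have hxe : x.2 = e.1 ++ x.2.drop e.1.length := by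
            conv_lhs => rw [← List.take_append_drop e.1.length x.2, hp]
          have hx' : Closed fl (e.1 ++ (x.2.drop e.1.length ++ B)) := by
            rw [← List.append_assoc, ← hxe]; exact hx
          obtain ⟨g1, g2⟩ := hg _ hx'
          obtain ⟨a, b⟩ := ih _ _ _ h (by
            intro y hy
            rcases List.mem_append.1 hy with hy | hy
            · obtain ⟨z, hz, rfl⟩ := List.mem_map.1 hy
              simpa [List.append_assoc] using g1 z hz
            · exact htd y hy) h2
          refine ⟨a, ?_⟩
          rw [b, val_append, val_map, val_cons]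
          have : f (x.2 ++ B) = f (e.1 ++ (x.2.drop e.1.length ++ B)) := by
            rw [← List.append_assoc, ← hxe]
          rw [this, g2]; simp [val]
      · split at h
        · simp at h
        · rename_i row hrow
          split at h
          · simp at h
          · rename_i m Rs hrule
            split_ifs at h with hall
            rw [scale_eq] at h
            set k := n / 16 % 32
            have hxe : x.2 ++ B =
                x.2.take k ++ (x.2.drop k).take m ++ ((x.2.drop k).drop m ++ B) := by
              rw [List.append_assoc, ← List.append_assoc ((x.2.drop k).take m),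
                List.take_append_drop, ← List.append_assoc, List.take_append_drop]
            have hc : ∀ y ∈ Rs, Closed fl (x.2.take k ++ y.2 ++ ((x.2.drop k).drop m ++ B)) := by
              intro y hy
              have e := List.all_eq_true.1 hall y hy
              simp only [decide_eq_true_eq] at e
              have := hx
              rw [hxe, closed_iff, run_append, run_append, hrow] at this
              rw [closed_iff, run_append, run_append, hrow]
              simpa [e] using this
            have hv := hr n row _ m Rs hrule (x.2.take k) _ hrow (hxe ▸ hx) hc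
            obtain ⟨a, b⟩ := ih _ _ _ h (by
              intro y hy
              rcases List.mem_append.1 hy with hy | hy
              · obtain ⟨z, hz, rfl⟩ := List.mem_map.1 hy
                simpa [List.append_assoc] using hc z hz
              · exact htd y hy) h2
            refine ⟨a, ?_⟩
            rw [b, val_append, val_map, val_cons, hxe, hv]

def decS (lab : Bool → α) (n : ℕ) : Sl α :=
  if n % 3 = 0 then cup (n / 6) (lab (n / 3 % 2 == 1))
  else if n % 3 = 1 then cap (n / 6) else cr (n / 6) (n / 3 % 2 == 1)

def build (fl : α → α) (rule : Rule α) (lab : Bool → α) :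
    List (List ℕ × List ℕ) → Table α → Option (Table α)
  | [], tab => some tab
  | e :: es, tab => forceW (e.1.map (decS lab)) fun w =>
      match script fl rule tab e.2 [([(0, 0, 1)], w)] [] with
      | none => none
      | some d => build fl rule lab es ((w, d) :: tab)

theorem build_sound {fl : α → α} {f : List (Sl α) → LL} {rule : Rule α} (hr : RuleOK fl f rule)
    (lab : Bool → α) (es : List (List ℕ × List ℕ)) :
    ∀ tab r : Table α, build fl rule lab es tab = some r → (∀ e ∈ tab, Good fl f e.1 e.2) →
      ∀ e ∈ r, Good fl f e.1 e.2 := by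
  induction es with
  | nil => intro tab r h ht; simp only [build, Option.some.injEq] at h; subst h; exact ht
  | cons e es ih =>
    intro tab r h ht
    simp only [build, forceW_eq] at h
    split at h
    · simp at h
    · rename_i d hd
      refine ih _ _ h ?_
      intro x hx
      rcases List.mem_cons.1 hx with rfl | hx
      · intro B hB
        obtain ⟨a, b⟩ := script_sound hr ht B _ _ _ _ hd
          (by intro y hy; simp only [List.mem_singleton] at hy; subst hy; exact hB)
          (by intro y hy; simp at hy)
        refine ⟨a, ?_⟩
        rw [b]; simp [evT]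
      · exact ht x hx

def check (fl : α → α) (rule : Rule α) (lab : Bool → α) (es : List (List ℕ × List ℕ))
    (w : List (Sl α)) (L : Terms α) : Bool :=
  match build fl rule lab es [] with
  | some (e :: _) => decide (e = (w, L))
  | _ => false

theorem check_sound {fl : α → α} {f : List (Sl α) → LL} {rule : Rule α} (hr : RuleOK fl f rule)
    {lab : Bool → α} {es : List (List ℕ × List ℕ)} {w : List (Sl α)} {L : Terms α}
    (h : check fl rule lab es w L = true) : Good fl f w L := by
  unfold check at h
  split at h
  · rename_i e r he
    simp only [decide_eq_true_eq] at h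
    have := build_sound hr lab es [] _ he (by simp) e (by simp)
    rw [h] at this; exact this
  · simp at h

/-! ### The rules -/

def regR (n : ℕ) (rest : List (Sl α)) : Option (ℕ × List (Sl α)) :=
  match n % 16, rest with
  | 2, s :: t :: _ =>
    if s.pos + s.out ≤ t.pos then some (2, [t.at (s.pos + s.inn + (t.pos - (s.pos + s.out))), s])
    else none
  | 3, t :: s :: _ =>
    if s.pos + s.inn ≤ t.pos then some (2, [s, t.at (s.pos + s.out + (t.pos - (s.pos + s.inn)))])
    else none
  | 4, cup i _ :: cap j :: _ => if i = j + 1 ∨ j = i + 1 then some (2, []) else none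
  | 5, cup i o :: cr j s :: _ => if i = j + 1 then some (2, [cup j o, cr i (!s)]) else none
  | 6, cup i o :: cr j s :: _ => if j = i + 1 then some (2, [cup j o, cr i (!s)]) else none
  | 7, cr i s :: cap j :: _ => if j = i + 1 then some (2, [cr j (!s), cap i]) else none
  | 8, cr i s :: cap j :: _ => if i = j + 1 then some (2, [cr j (!s), cap i]) else none
  | 9, cr i s :: cr j t :: _ => if i = j ∧ t = !s then some (2, []) else none
  | 10, _ => some (0, [cr (n / 512 % 16) (n / 8192 == 1), cr (n / 512 % 16) (!(n / 8192 == 1))])
  | 11, cr i s :: cr j t :: cr l u :: _ =>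
    if l = i ∧ t = s ∧ u = s ∧ (j = i + 1 ∨ i = j + 1) then some (3, [cr j s, cr i s, cr j s])
    else none
  | _, _ => none

omit [DecidableEq α] in
theorem at_pos (t : Sl α) : t.at t.pos = t := by cases t <;> rfl

omit [DecidableEq α] in
theorem at_at (t : Sl α) (i j : ℕ) : (t.at i).at j = t.at j := by cases t <;> rfl

omit [DecidableEq α] in
theorem regR_sound {n : ℕ} {rest : List (Sl α)} {m : ℕ} {R : List (Sl α)}
    (h : regR n rest = some (m, R)) : Reg (rest.take m) R ∨ Reg R (rest.take m) := by
  unfold regR at h
  split at h
  · rename_i s t _ _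
    split_ifs at h with c
    obtain ⟨rfl, rfl⟩ := Prod.mk.inj (Option.some.inj h)
    left
    have := Reg.comm s t (t.pos - (s.pos + s.out))
    rw [Nat.add_sub_cancel' c, at_pos] at this
    exact this
  · rename_i t s _ _
    split_ifs at h with c
    obtain ⟨rfl, rfl⟩ := Prod.mk.inj (Option.some.inj h)
    right
    have := Reg.comm s t (t.pos - (s.pos + s.inn))
    rw [Nat.add_sub_cancel' c, at_pos] at this
    exact this
  · split_ifs at h with c
    obtain ⟨rfl, rfl⟩ := Prod.mk.inj (Option.some.inj h)
    rcases c with rfl | rfl
    · exact Or.inl (Reg.zig _ _)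
    · exact Or.inl (Reg.zag _ _)
  · split_ifs at h with c
    obtain ⟨rfl, rfl⟩ := Prod.mk.inj (Option.some.inj h)
    subst c; exact Or.inl (Reg.cupSl _ _ _)
  · rename_i i o j s _ _
    split_ifs at h with c
    obtain ⟨rfl, rfl⟩ := Prod.mk.inj (Option.some.inj h)
    subst c; right
    simpa using Reg.cupSl i o (!s)
  · split_ifs at h with c
    obtain ⟨rfl, rfl⟩ := Prod.mk.inj (Option.some.inj h)
    subst c; exact Or.inl (Reg.capSl _ _)
  · rename_i i s j _ _
    split_ifs at h with c
    obtain ⟨rfl, rfl⟩ := Prod.mk.inj (Option.some.inj h)
    subst c; right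
    simpa using Reg.capSl (α := α) j (!s)
  · split_ifs at h with c
    obtain ⟨rfl, rfl⟩ := Prod.mk.inj (Option.some.inj h)
    obtain ⟨rfl, rfl⟩ := c; exact Or.inl (Reg.r2 _ _)
  · obtain ⟨rfl, rfl⟩ := Prod.mk.inj (Option.some.inj h)
    exact Or.inr (Reg.r2 _ _)
  · split_ifs at h with c
    obtain ⟨rfl, rfl⟩ := Prod.mk.inj (Option.some.inj h)
    obtain ⟨rfl, rfl, rfl, rfl | rfl⟩ := c
    · exact Or.inl (Reg.r3 _ _)
    · exact Or.inr (Reg.r3 _ _)
  · simp at h

def curlR (fl : α → α) (rest : List (Sl α)) : Option (Bool × List (Sl α)) :=
  match rest with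
  | cr i s :: cap j :: _ => if i = j then some (s, [cap i]) else none
  | cup i o :: cr j s :: _ => if i = j then some (s, [cup i (fl o)]) else none
  | _ => none

omit [DecidableEq α] in
theorem curlR_sound {fl : α → α} {rest : List (Sl α)} {s : Bool} {R : List (Sl α)}
    (h : curlR fl rest = some (s, R)) : Curl fl s (rest.take 2) R := by
  unfold curlR at h
  split at h
  · split_ifs at h with c
    obtain ⟨rfl, rfl⟩ := Prod.mk.inj (Option.some.inj h)
    subst c; exact Curl.cap _ _
  · split_ifs at h with c
    obtain ⟨rfl, rfl⟩ := Prod.mk.inj (Option.some.inj h)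
    subst c; exact Curl.cup _ _ _
  · simp at h

theorem closed_cr {fl : α → α} {A B : List (Sl α)} {i : ℕ} {s : Bool} (t : Bool)
    (h : Closed fl (A ++ cr i s :: B)) : Closed fl (A ++ cr i t :: B) := by
  rw [closed_iff, run_append] at h ⊢
  exact h

def homR : Rule Bool := fun n row rest =>
  if n % 16 = 12 then (curlR not rest).map fun x => (2, [([(0, 0, 1)], x.2)])
  else if n % 16 = 13 then
    match rest with
    | cr i s :: _ =>
      match row.drop i with
      | x :: y :: _ =>
        if s = (x == y) then
          some (1, [([(2, 0, 1)], [cr i (x != y)]),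
            ([(1, 1, 1)], if x = y then [] else [cap i, cup i y])])
        else
          some (1, [([(-2, 0, 1)], [cr i (x == y)]),
            ([(-1, 1, -1)], if x = y then [] else [cap i, cup i y])])
      | _ => none
    | _ => none
  else if n % 16 = 14 then
    match row.drop (n / 512) with
    | x :: y :: _ =>
      if rest.take (if x = y then 0 else 2) =
          (if x = y then [] else [cap (n / 512), cup (n / 512) y]) then
        some (if x = y then 0 else 2,
          [([(-1, -1, 1)], [cr (n / 512) (x == y)]), ([(1, -1, -1)], [cr (n / 512) (x != y)])])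
      else none
    | _ => none
  else (regR n rest).map fun x => (x.1, [([(0, 0, 1)], x.2)])

theorem hT (a b : ℤ) : (T a : LL) * T b = T (a + b) := (T_add a b).symm

theorem hZ : (C (T 1) : LL) * C (T (-1)) = 1 := by
  rw [← map_mul, ← T_add]; simp

theorem hA : (T 1 : LL) * T (-1) = 1 := by rw [← T_add]; simp

theorem hA2 : (T 2 : LL) = T 1 * T 1 := by rw [← T_add]; rfl

theorem hA2' : (T (-2) : LL) = T (-1) * T (-1) := by rw [← T_add]; rfl

theorem homR_sound {P : List (Sl Bool) → LL} (hP : IsHomfly P) : RuleOK not P homR := by
  obtain ⟨hiso, -, hsk⟩ := hP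
  intro n row rest m Rs h A B hA' hc hRs
  unfold homR at h
  split_ifs at h with c1 c2 c3
  · obtain ⟨x, hx, h⟩ := Option.map_eq_some_iff.1 h
    obtain ⟨rfl, rfl⟩ := Prod.mk.inj h
    have := curlR_sound (s := x.1) (R := x.2) hx
    rw [hiso _ _ (Relation.EqvGen.rel _ _
      ⟨hc, hRs _ (List.mem_singleton_self _), A, B, _, _, Or.inr ⟨_, this⟩, rfl, rfl⟩)]
    simp [evT]
  · split at h
    · rename_i i s _
      split at h
      · rename_i x y t hr
        have hc' : Closed not (A ++ cr i true :: B) := by
          split_ifs at h <;> obtain ⟨rfl, rfl⟩ := Prod.mk.inj (Option.some.inj h) <;>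
            exact closed_cr (s := s) true (by simpa using hc)
        have e := hsk A B i row x y t hA' hr hc'
        split_ifs at h with c4 c5 c5
        all_goals
          obtain ⟨rfl, rfl⟩ := Prod.mk.inj (Option.some.inj h)
          simp only [List.take_succ_cons, List.take_zero, List.append_assoc, List.cons_append,
            List.nil_append, List.map_cons, List.map_nil, List.sum_cons, List.sum_nil, ev_cons,
            ev_nil, evT, hA2, hA2', T_zero, map_one, c5, if_true, if_false] at e ⊢
        · rw [c4]; subst c5
          push_cast
          linear_combination (T 1 : LL) * e - P (A ++ cr i (x == x) :: B) * hA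
        · rw [c4]
          push_cast
          linear_combination (T 1 : LL) * e - P (A ++ cr i (x == y) :: B) * hA
        · have : s = (y != y) := by subst c5; revert c4; cases s <;> simp
          rw [this]
          push_cast
          linear_combination (-(T (-1) : LL)) * e - P (A ++ cr i (y != y) :: B) * hA
        · have : s = (x != y) := by revert c4; cases s <;> cases x <;> cases y <;> simp
          rw [this]
          push_cast
          linear_combination (-(T (-1) : LL)) * e - P (A ++ cr i (x != y) :: B) * hA
      · simp at h
    · simp at h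
  · split at h
    · rename_i x y t hr
      by_cases c4 : rest.take (if x = y then 0 else 2) =
          (if x = y then [] else [cap (n / 512), cup (n / 512) y])
      · rw [if_pos c4] at h
        obtain ⟨rfl, rfl⟩ := Prod.mk.inj (Option.some.inj h)
        have hc' : Closed not (A ++ cr (n / 512) true :: B) :=
          closed_cr (s := (x == y)) true (by simpa using hRs _ List.mem_cons_self)
        have e := hsk A B _ row x y t hA' hr hc'
        rw [c4]
        simp only [List.append_assoc, List.cons_append,
            List.nil_append, List.map_cons, List.map_nil, List.sum_cons, List.sum_nil, ev_cons,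
            ev_nil, evT] at e ⊢
        push_cast
        linear_combination (-(C (T (-1)) : LL)) * e -
          P (A ++ ((if x = y then [] else [cap (n / 512), cup (n / 512) y]) ++ B)) * hZ
      · rw [if_neg c4] at h; simp at h
    · simp at h
  · obtain ⟨x, hx, h⟩ := Option.map_eq_some_iff.1 h
    obtain ⟨rfl, rfl⟩ := Prod.mk.inj h
    have h2 := hRs _ (List.mem_singleton_self _)
    rcases regR_sound (m := x.1) (R := x.2) hx with g | g
    · rw [hiso _ _ (Relation.EqvGen.rel _ _ ⟨hc, h2, A, B, _, _, Or.inl g, rfl, rfl⟩)]
      simp [evT]
    · rw [← hiso _ _ (Relation.EqvGen.rel _ _ ⟨h2, hc, A, B, _, _, Or.inl g, rfl, rfl⟩)]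
      simp [evT]

def kauR : Rule Unit := fun n _ rest =>
  if n % 16 = 12 then
    (curlR id rest).map fun x => (2, [([(if x.1 then -1 else 1, 0, 1)], x.2)])
  else if n % 16 = 13 then
    match rest with
    | cr i s :: _ =>
      some (1, [([(0, 0, -1)], [cr i (!s)]), ([(0, 1, 1)], []), ([(0, 1, 1)], [cap i, cup i ()])])
    | _ => none
  else if n % 16 = 14 then
    if rest.take 2 = [cap (n / 512), cup (n / 512) ()] then
      some (2, [([(0, -1, 1)], [cr (n / 512) true]), ([(0, -1, 1)], [cr (n / 512) false]),
        ([(0, 0, -1)], [])])
    else none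
  else (regR n rest).map fun x => (x.1, [([(0, 0, 1)], x.2)])

theorem kauR_sound {L : List (Sl Unit) → LL} (hL : IsKauffman L) : RuleOK id L kauR := by
  obtain ⟨hiso, -, hsk, hcu⟩ := hL
  intro n row rest m Rs h A B hA' hc hRs
  unfold kauR at h
  split_ifs at h with c1 c2 c3 c4
  · obtain ⟨x, hx, h⟩ := Option.map_eq_some_iff.1 h
    obtain ⟨rfl, rfl⟩ := Prod.mk.inj h
    have := curlR_sound (s := x.1) (R := x.2) hx
    rw [hcu x.1 _ _ ⟨hc, hRs _ (List.mem_singleton_self _), A, B, _, _, this, rfl, rfl⟩]
    simp [evT]
  · split at h
    · rename_i i s _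
      obtain ⟨rfl, rfl⟩ := Prod.mk.inj (Option.some.inj h)
      have e := hsk A B i (closed_cr (s := s) true (by simpa using hc))
      simp only [List.take_succ_cons, List.take_zero, List.append_assoc, List.cons_append,
        List.nil_append, List.map_cons, List.map_nil, List.sum_cons, List.sum_nil, ev_cons,
        ev_nil, evT, T_zero, map_one]
      push_cast
      cases s
      · simp only [Bool.not_false]; linear_combination e
      · simp only [Bool.not_true]; linear_combination e
    · simp at h
  · obtain ⟨rfl, rfl⟩ := Prod.mk.inj (Option.some.inj h)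
    have e := hsk A B (n / 512) (by simpa using hRs _ List.mem_cons_self)
    rw [c4]
    simp only [List.append_assoc, List.cons_append,
      List.nil_append, List.map_cons, List.map_nil, List.sum_cons, List.sum_nil, ev_cons,
      ev_nil, evT, T_zero, map_one]
    push_cast
    linear_combination (-(C (T (-1)) : LL)) * e -
      (L (A ++ B) + L (A ++ cap (n / 512) :: cup (n / 512) () :: B)) * hZ
  · obtain ⟨x, hx, h⟩ := Option.map_eq_some_iff.1 h
    obtain ⟨rfl, rfl⟩ := Prod.mk.inj h
    have h2 := hRs _ (List.mem_singleton_self _)
    rcases regR_sound (m := x.1) (R := x.2) hx with g | g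
    · rw [hiso _ _ ⟨hc, h2, A, B, _, _, g, rfl, rfl⟩]
      simp [evT]
    · rw [← hiso _ _ ⟨h2, hc, A, B, _, _, g, rfl, rfl⟩]
      simp [evT]

end Pool.Agent.P.MP_7f6fde_gt
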